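import Pool.Agent.Q10.KZ8

/-!
# The n-term abc conjecture on rational curves whose zeros need not be rational

`x ↦ (P 0 (x) : ... : P (n-1) (x))` is a rational curve of degree `D` over `ℚ` in the hyperplane
`Z_1 + ... + Z_n = 0` on which no proper subsum vanishes identically. The product of the `P i` is an
arbitrary polynomial: its irreducible factors over `ℚ` may have any degree. We count the admissible
tuples on the curve by their radical: all of them, of whatever size, and those of polynomially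
bounded size.
-/

set_option autoImplicit false

namespace Pool.Agent.Results.MP_a95293_nt.CurvesWithIrrationalZeros

open Polynomial

open Classical in
/-- the different monic irreducible factors over `ℚ` of the product of the `P i` -/
noncomputable def factors {n : ℕ} (P : Fin n → ℚ[X]) : Finset ℚ[X] :=
  (UniqueFactorizationMonoid.normalizedFactors (∏ i, P i)).toFinset

open Classical in
/-- the number of the different points of the projective line over an algebraic closure of `ℚ` at
which the curve meets the coordinate hyperplanes (infinity is one of them if the degrees of the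
`P i` are not all equal) -/
noncomputable def zeros {n : ℕ} (P : Fin n → ℚ[X]) : ℕ :=
  ∑ g ∈ factors P, g.natDegree + if ∃ i j, (P i).natDegree < (P j).natDegree then 1 else 0

open Classical in
/-- the number of the rational points among them -/
noncomputable def rationalZeros {n : ℕ} (P : Fin n → ℚ[X]) : ℕ :=
  ((factors P).filter fun g => g.natDegree = 1).card +
    if ∃ i j, (P i).natDegree < (P j).natDegree then 1 else 0

open Classical in
/-- the number of the irreducible factors of degree at least two, plus half the number of the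
rational zeros if there are at least two of them -/
noncomputable def S₁ {n : ℕ} (P : Fin n → ℚ[X]) : ℝ :=
  (((factors P).filter fun g => 2 ≤ g.natDegree).card : ℝ) +
    if 2 ≤ rationalZeros P then (rationalZeros P : ℝ) / 2 else 0

open Classical in
/-- the number of the irreducible factors of degree at least three, plus half the number of the
rational zeros if there are at least three of them -/
noncomputable def S₂ {n : ℕ} (P : Fin n → ℚ[X]) : ℝ :=
  (((factors P).filter fun g => 3 ≤ g.natDegree).card : ℝ) +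
    if 3 ≤ rationalZeros P then (rationalZeros P : ℝ) / 2 else 0

/-- the admissible tuples of the problem -/
def Admissible {n : ℕ} (z : Fin n → ℤ) : Prop :=
  (∀ d : ℤ, (∀ i, d ∣ z i) → IsUnit d) ∧ ∑ i, z i = 0 ∧
    ∀ s : Finset (Fin n), s.Nonempty → s ≠ Finset.univ → ∑ i ∈ s, z i ≠ 0

/-- the radical of the product of the coordinates -/
def rad {n : ℕ} (z : Fin n → ℤ) : ℕ := ∏ p ∈ (∏ i, z i).natAbs.primeFactors, p

/-- the admissible tuples proportional to `(P 0 (x), ..., P (n-1) (x))` for some rational `x` -/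
def OnCurve {n : ℕ} (P : Fin n → ℚ[X]) : Set (Fin n → ℤ) :=
  {z | Admissible z ∧ ∃ x r : ℚ, ∀ i, (z i : ℚ) = r * (P i).eval x}

/-- those with radical at most `X`; there is no condition on their size -/
def Tuples {n : ℕ} (P : Fin n → ℚ[X]) (X : ℝ) : Set (Fin n → ℤ) :=
  {z | z ∈ OnCurve P ∧ (rad z : ℝ) ≤ X}

/-- those with radical at most `X` and coordinates of absolute value at most `B` -/
def TuplesUpTo {n : ℕ} (P : Fin n → ℚ[X]) (X B : ℝ) : Set (Fin n → ℤ) :=
  {z | z ∈ Tuples P X ∧ ∀ i, |(z i : ℝ)| ≤ B}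

section
variable {n : ℕ} {P : Fin n → ℚ[X]}

open Pool.Agent.Q10.KZ

theorem zeros_eq : zeros P = nQ P := by
  classical
  unfold zeros nQ Uneq
  congr!

theorem rationalZeros_eq : rationalZeros P = nL P := by
  classical
  unfold rationalZeros nL Uneq
  congr!

theorem S₁_eq : S₁ P = T1 P := by
  unfold S₁ T1
  rw [rationalZeros_eq]
  rfl

theorem S₂_eq : S₂ P = T2 P := by
  unfold S₂ T2
  rw [rationalZeros_eq]
  rfl

theorem tuples_eq (hn : 2 ≤ n) (X : ℝ) : Tuples P X = TA P NV X := by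
  ext z
  constructor
  · rintro ⟨⟨⟨h1, h2, h3⟩, h4⟩, h5⟩
    exact ⟨fun i => nv_ne hn ⟨h2, h3⟩ i, h1, h4, ⟨h2, h3⟩, h5⟩
  · rintro ⟨-, h1, h4, ⟨h2, h3⟩, h5⟩
    exact ⟨⟨⟨h1, h2, h3⟩, h4⟩, h5⟩

theorem tuplesUpTo_eq (hn : 2 ≤ n) (X B : ℝ) : TuplesUpTo P X B = TAB P NV X B := by
  ext z
  unfold TuplesUpTo TAB
  rw [Set.mem_ofPred_eq, Set.mem_ofPred_eq, tuples_eq hn, mz_le_iff (by omega)]

end

open Pool.Agent.Q10.KZ in
/-- **Theorem.** Let `P 0, ..., P (n-1)` be nonzero polynomials over `ℚ` with sum zero, without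
vanishing proper subsums and without a common zero, of maximal degree `D ≥ 1`, with `q` different
zeros on the projective line in all.

(1) For all `κ, ε > 0` there are at most `C X ^ (1 / S₁ + ε)` admissible tuples on the curve with
radical at most `X` and `max |z i| ≤ X ^ κ`.

(2) If `S₂ > 0` (the product of the `P i` has an irreducible factor of degree at least three, or the
curve has at least three rational zeros), then there are at most `C X ^ (1 / S₂ + ε)` admissible
tuples on the curve with radical at most `X`, whatever their size.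

(3) For `κ > D / q` there are at least `c X ^ (2 / q)` admissible tuples on the curve with radical
at most `X` and `max |z i| ≤ X ^ κ`, if `X` is large.

(4) If the irreducible factors of the product of the `P i` have degree one or two and the number of
the rational zeros is not one, then for every `κ > D / q` the number of the tuples in (3) is
`X ^ (2 / q + o(1))`. -/
theorem result (n : ℕ) (P : Fin n → ℚ[X]) (hP : ∀ i, P i ≠ 0) (hsum : ∑ i, P i = 0)
    (hsub : ∀ s : Finset (Fin n), s.Nonempty → s ≠ Finset.univ → ∑ i ∈ s, P i ≠ 0)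
    (hu : ∃ u : Fin n → ℚ[X], ∑ i, u i * P i = 1)
    (D : ℕ) (hD : 1 ≤ D) (hdeg : ∀ i, (P i).natDegree ≤ D) (hdeg' : ∃ i, (P i).natDegree = D)
    (q : ℕ) (hq : zeros P = q) :
    (∀ κ ε : ℝ, 0 < κ → 0 < ε → ∃ C : ℝ, ∀ X : ℝ, 1 ≤ X →
      (TuplesUpTo P X (X ^ κ)).Finite ∧
      ((TuplesUpTo P X (X ^ κ)).ncard : ℝ) ≤ C * X ^ (1 / S₁ P + ε)) ∧
    (0 < S₂ P → ∀ ε : ℝ, 0 < ε → ∃ C : ℝ, ∀ X : ℝ, 1 ≤ X →
      (Tuples P X).Finite ∧ ((Tuples P X).ncard : ℝ) ≤ C * X ^ (1 / S₂ P + ε)) ∧
    (∀ κ : ℝ, (D : ℝ) / q < κ → ∃ c : ℝ, 0 < c ∧ ∃ X₀ : ℝ, ∀ X : ℝ, X₀ ≤ X →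
      c * X ^ (2 / (q : ℝ)) ≤ ((TuplesUpTo P X (X ^ κ)).ncard : ℝ)) ∧
    ((∀ g ∈ factors P, g.natDegree ≤ 2) → rationalZeros P ≠ 1 → ∀ κ : ℝ, (D : ℝ) / q < κ →
      ∀ δ : ℝ, 0 < δ → ∃ X₀ : ℝ, ∀ X : ℝ, X₀ ≤ X →
        X ^ (2 / (q : ℝ) - δ) ≤ ((TuplesUpTo P X (X ^ κ)).ncard : ℝ) ∧
        ((TuplesUpTo P X (X ^ κ)).ncard : ℝ) ≤ X ^ (2 / (q : ℝ) + δ)) := by
  classical
  have hn : 0 < n := by
    obtain ⟨i, -⟩ := hdeg'
    exact i.pos
  have hn2 := two_le_n hP hsum hn
  rw [zeros_eq] at hq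
  have hA : ∀ z : Fin n → ℤ, (∀ i, z i ≠ 0) → Pool.Agent.Y557.NF.Prim z → ∀ x r : ℚ,
      x ∉ BadS P → (∀ i, (z i : ℚ) = r * (P i).eval x) → NV z :=
    fun z hz _ x r hx h => nv_of hn hsum hz hx h
  obtain ⟨h1, h2, h3, h4⟩ := tuplesQ hP hu hD hdeg hdeg' NV (badS_finite hsub) hA
  rw [hq] at h3 h4
  simp only [tuplesUpTo_eq hn2, tuples_eq hn2, S₁_eq, S₂_eq,
    rationalZeros_eq]
  refine ⟨?_, ?_, ?_, ?_⟩
  · intro κ ε hκ hε
    obtain ⟨C, -, h⟩ := h1 κ ε hκ hε
    exact ⟨C, h⟩
  · intro hS ε hε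
    obtain ⟨C, -, h⟩ := h2 hS ε hε
    exact ⟨C, h⟩
  · intro κ hκ
    obtain ⟨c, hc, X₀, -, h⟩ := h3 κ hκ
    exact ⟨c, hc, X₀, h⟩
  · intro hd hr κ hκ δ hδ
    obtain ⟨X₀, -, h⟩ := h4 hd hr κ hκ δ hδ
    exact ⟨X₀, h⟩

end Pool.Agent.Results.MP_a95293_nt.CurvesWithIrrationalZeros
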