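import Pool.Agent.Q38.NG.Exact

/-!
# The `n`-term abc conjecture: the exact order of the number of exceptions for small exponents

For `n ≥ 4` and `1/n < M < 1/(n-1)` we determine the exponent of the number of admissible `n`-tuples
which violate `max |x_j| ≤ rad (x_1 ⋯ x_n) ^ M`: ordered by the size the exponent is `1/M - 1`; ordered
by the radical it is `1 - M` for the tuples with `rad ^ M ≤ max < rad ^ L`, `L ≤ (1 - M)/(n - 2)`. For
every `M ≥ 1/(n-1)` there are at most `X ^ (n - 2 + ε)` exceptions of size at most `X`.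
-/

set_option autoImplicit false

namespace Pool.Agent.Results.MP_a95293_nt.ExactCountOfExceptions

open Filter Topology

/-- `x` is an admissible tuple: integers with greatest common divisor `1`, with sum zero, and no
sub-sum over a non-empty proper set of indices vanishes. -/
def Admissible {n : ℕ} (x : Fin n → ℤ) : Prop :=
  Finset.univ.gcd x = 1 ∧ ∑ i, x i = 0 ∧
    ∀ I : Finset (Fin n), I.Nonempty → I ≠ Finset.univ → ∑ i ∈ I, x i ≠ 0

/-- The radical of `x_1 ⋯ x_n`: the product of the primes dividing it. -/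
def rad {n : ℕ} (x : Fin n → ℤ) : ℕ := ∏ p ∈ (∏ i, x i).natAbs.primeFactors, p

/-- The size `max |x_j|`. -/
def size {n : ℕ} (x : Fin n → ℤ) : ℕ := Finset.univ.sup fun i => (x i).natAbs

/-- The admissible tuples of size at most `X` which violate `max |x_j| ≤ rad ^ M`. -/
def Exceptions (n : ℕ) (M X : ℝ) : Set (Fin n → ℤ) :=
  {x | Admissible x ∧ (size x : ℝ) ≤ X ∧ (rad x : ℝ) ^ M < size x}

/-- The admissible tuples of radical at most `X` with `rad ^ M ≤ max |x_j| < rad ^ L`. -/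
def Between (n : ℕ) (M L X : ℝ) : Set (Fin n → ℤ) :=
  {x | Admissible x ∧ (rad x : ℝ) ≤ X ∧ (rad x : ℝ) ^ M ≤ size x ∧ (size x : ℝ) < (rad x : ℝ) ^ L}

open Pool.Agent.Q38.NG Pool.Agent.Q38.AE.Cov
open Pool.Agent.Q38.NC (lh lr RX_pos)

theorem adm_iff {n : ℕ} (hn : 4 ≤ n) (x : Fin n → ℤ) : Admissible x ↔ AdG x := by
  constructor
  · rintro ⟨h1, h2, h3⟩
    refine ⟨fun i => ?_, fun p hp => ?_, h2, h3⟩
    · have h4 := h3 {i} (Finset.singleton_nonempty i) (by
        intro h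
        have h5 := congrArg Finset.card h
        rw [Finset.card_singleton, Finset.card_univ, Fintype.card_fin] at h5
        omega)
      rwa [Finset.sum_singleton] at h4
    · by_contra hcon
      push Not at hcon
      have h4 : (p : ℤ) ∣ Finset.univ.gcd x := Finset.dvd_gcd fun i _ => hcon i
      rw [h1] at h4
      have h5 : p ∣ 1 := by exact_mod_cast h4
      exact hp.one_lt.ne' (Nat.dvd_one.1 h5)
  · intro h
    refine ⟨?_, h.sum, h.nv⟩
    have h0 : (Finset.univ.gcd x).natAbs = 1 := by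
      by_contra hne
      obtain ⟨p, hp, hpd⟩ := Nat.exists_prime_and_dvd hne
      obtain ⟨i, hi⟩ := h.cop p hp
      exact hi ((Int.natCast_dvd.2 hpd).trans (Finset.gcd_dvd (Finset.mem_univ i)))
    have h1 : normalize (Finset.univ.gcd x) = Finset.univ.gcd x := Finset.normalize_gcd
    rw [← h1, ← Int.abs_eq_normalize, Int.abs_eq_natAbs, h0]
    rfl

theorem size_pos {n : ℕ} (hn : 4 ≤ n) {x : Fin n → ℤ} (h : Admissible x) : (0 : ℝ) < size x := by
  exact_mod_cast ht_pos' (by omega) ((adm_iff hn x).1 h)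

theorem rad_pos' {n : ℕ} (x : Fin n → ℤ) : (0 : ℝ) < rad x := by exact_mod_cast RX_pos x

theorem exc_eq {n : ℕ} (hn : 4 ≤ n) {M : ℝ} (hM : 0 < M) (X : ℝ) :
    Exceptions n M X = Z AdG M X := by
  ext x
  constructor
  · rintro ⟨h1, h2, h3⟩
    have hs := size_pos hn h1
    refine ⟨(adm_iff hn x).1 h1, ?_, ?_⟩
    · show Real.exp (Real.log (size x)) ≤ X
      rw [Real.exp_log hs]
      exact h2
    · show Real.log (rad x) < 1 / M * Real.log (size x)
      have h5 := Real.log_lt_log (Real.rpow_pos_of_pos (rad_pos' x) M) h3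
      rw [Real.log_rpow (rad_pos' x)] at h5
      rw [one_div, ← div_eq_inv_mul, lt_div_iff₀ hM]
      linarith
  · rintro ⟨h1, h2, h3⟩
    have h1' := (adm_iff hn x).2 h1
    have hs := size_pos hn h1'
    refine ⟨h1', ?_, ?_⟩
    · have h5 : Real.exp (Real.log (size x)) ≤ X := h2
      rwa [Real.exp_log hs] at h5
    · have h5 : Real.log (rad x) < 1 / M * Real.log (size x) := h3
      rw [one_div, ← div_eq_inv_mul, lt_div_iff₀ hM] at h5
      rw [← Real.log_lt_log_iff (Real.rpow_pos_of_pos (rad_pos' x) M) hs,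
        Real.log_rpow (rad_pos' x)]
      linarith

theorem bet_eq {n : ℕ} (hn : 4 ≤ n) (M L : ℝ) (X : ℝ) :
    Between n M L X = F AdG lh lr M L X := by
  ext x
  have hr := rad_pos' x
  constructor
  · rintro ⟨h1, h2, h3, h4⟩
    have hs := size_pos hn h1
    refine ⟨(adm_iff hn x).1 h1, ?_, ?_, ?_⟩
    · show Real.exp (Real.log (rad x)) ≤ X
      rw [Real.exp_log hr]
      exact h2
    · show M * Real.log (rad x) ≤ Real.log (size x)
      rw [← Real.log_rpow hr]
      exact Real.log_le_log (Real.rpow_pos_of_pos hr M) h3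
    · show Real.log (size x) < L * Real.log (rad x)
      rw [← Real.log_rpow hr]
      exact Real.log_lt_log hs h4
  · rintro ⟨h1, h2, h3, h4⟩
    have h1' := (adm_iff hn x).2 h1
    have hs := size_pos hn h1'
    refine ⟨h1', ?_, ?_, ?_⟩
    · have h6 : Real.exp (Real.log (rad x)) ≤ X := h2
      rwa [Real.exp_log hr] at h6
    · have h6 : M * Real.log (rad x) ≤ Real.log (size x) := h3
      rw [← Real.log_le_log_iff (Real.rpow_pos_of_pos hr M) hs, Real.log_rpow hr]
      exact h6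
    · have h6 : Real.log (size x) < L * Real.log (rad x) := h4
      rw [← Real.log_lt_log_iff hs (Real.rpow_pos_of_pos hr L), Real.log_rpow hr]
      exact h6

/-- Let `n ≥ 4`.
(1) For `1/n < M < 1/(n-1)` the number of the admissible `n`-tuples with `max |x_j| ≤ X` which
violate `max |x_j| ≤ rad (x_1 ⋯ x_n) ^ M` is finite and equal to `X ^ (1/M - 1 + o(1))` for `X → ∞`.
(2) For `M ≥ 1/(n-1)`, `M ≤ 1`, and `ε > 0` it is at most `C X ^ (n - 2 + ε)`.
(3) For `1/n < M < 1/(n-1)` and `M < L ≤ (1 - M)/(n - 2)` the number of the admissible `n`-tuples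
with `rad ≤ X` and `rad ^ M ≤ max |x_j| < rad ^ L` is finite for `X ≥ 1` and equal to
`X ^ (1 - M + o(1))` for `X → ∞`. -/
theorem result (n : ℕ) (hn : 4 ≤ n) :
    (∀ M : ℝ, 1 / (n : ℝ) < M → M < 1 / ((n : ℝ) - 1) →
      (∀ X : ℝ, 1 ≤ X → (Exceptions n M X).Finite) ∧
      Tendsto (fun X : ℝ => Real.log ((Exceptions n M X).ncard : ℝ) / Real.log X) atTop
        (𝓝 (1 / M - 1))) ∧
    (∀ M : ℝ, 1 / ((n : ℝ) - 1) ≤ M → M ≤ 1 → ∀ ε : ℝ, 0 < ε → ∃ C : ℝ, ∀ X : ℝ, 1 ≤ X →
      (Exceptions n M X).Finite ∧ ((Exceptions n M X).ncard : ℝ) ≤ C * X ^ ((n : ℝ) - 2 + ε)) ∧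
    (∀ M L : ℝ, 1 / (n : ℝ) < M → M < 1 / ((n : ℝ) - 1) → M < L → L ≤ (1 - M) / ((n : ℝ) - 2) →
      (∀ X : ℝ, 1 ≤ X → (Between n M L X).Finite) ∧
      Tendsto (fun X : ℝ => Real.log ((Between n M L X).ncard : ℝ) / Real.log X) atTop
        (𝓝 (1 - M))) := by
  have hn4 : (4 : ℝ) ≤ n := by exact_mod_cast hn
  have hP' : ∀ x : Fin n → ℤ, Pool.Agent.Q38.NC.Adm x → Pool.Agent.Q38.NC.NV x → AdG x :=
    fun x h1 h2 => adG_of_adm (by omega) h1 h2
  refine ⟨fun M h1 h2 => ?_, fun M h1 h2 ε hε => ?_, fun M L h1 h2 h3 h4 => ?_⟩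
  · obtain ⟨hM0, -, -, -⟩ := inv_facts hn h1 h2
    refine ⟨fun X hX => ?_, ?_⟩
    · rw [exc_eq hn hM0]
      obtain ⟨C, -, h⟩ := Z_up (P := AdG) hn (fun _ h => h) h1 h2 1 one_pos
      exact (h X hX).1
    · simp only [exc_eq hn hM0]
      exact Z_exact hn (fun _ h => h) hP' h1 h2
  · have hn1 : (0 : ℝ) < (n : ℝ) - 1 := by linarith
    have hM0 : 0 < M := lt_of_lt_of_le (by positivity) h1
    have h5 : 1 / M ≤ (n : ℝ) - 1 := by
      rw [div_le_iff₀ hM0]
      rw [div_le_iff₀ hn1] at h1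
      linarith
    obtain ⟨C, hC⟩ := A_le (P := AdG) hn (fun _ h => h) hM0 h2 ε hε
    have e : max ((n : ℝ) - 2) (1 / M - 1) = (n : ℝ) - 2 := max_eq_left (by linarith)
    rw [e] at hC
    refine ⟨C, fun X hX => ?_⟩
    obtain ⟨f, c⟩ := hC X hX
    rw [exc_eq hn hM0]
    have hsub : Z AdG M X ⊆ A (Ω := Fin n → ℤ) AdG lh lr M X :=
      fun x hx => ⟨hx.1, hx.2.1, hx.2.2.trans (lt_add_one _)⟩
    refine ⟨f.subset hsub, le_trans ?_ c⟩
    exact_mod_cast Set.ncard_le_ncard hsub f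
  · simp only [bet_eq hn]
    exact F_exact hn (fun _ h => h) hP' h1 h2 h3 h4

end Pool.Agent.Results.MP_a95293_nt.ExactCountOfExceptions
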