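import Pool.Agent.Q39.NT.Rec

/-!
# The n-term abc conjecture: records for every `n`, and the conjecture for `n + 1` implies that for `n`

1. If some exponent works for the admissible `(n + 1)`-tuples then some exponent works for the
   admissible `n`-tuples. So Q1 holds if and only if it holds for arbitrarily large `n`, and if the
   weak abc conjecture (`n = 3`) fails then it fails for every `n`.
2. Browkin and Brzeziński showed that no exponent smaller than `2 n - 5` works for all but finitely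
   many admissible `n`-tuples, and conjectured that every exponent larger than `2 n - 5` does. We show
   that the exponent `2 n - 5` itself does not, not even with a constant: for every `n ≥ 3` and
   `0 ≤ κ < 6.84 √(2 n - 5)` infinitely many admissible `n`-tuples satisfy
   `max |x_j| > rad ^ (2 n - 5) exp (κ √(log max |x_j|) / log log max |x_j|)`.

Outline. (1) If `x_i` is odd then `(x_i, x_i, 2 x_j (j ≠ i))` is an admissible `(n + 1)`-tuple: a subsum
which contains exactly one of the two terms `x_i` is odd. (2) `a ^ m + b ^ m`, `m = 2 n - 5`, is an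
integral combination of the `n - 2` numbers `(a b) ^ j (a + b) ^ (m - 2 j)`, with nonzero
coefficients. The only linear relations between these polynomials are the multiples of this one, so
that only finitely many coprime pairs `(a, b)` give a vanishing subsum. The abc triples are those of
the starting file `MP_7aad9f_nt.LargerConstant` (Stewart-Tijdeman type).
-/

set_option autoImplicit false

namespace Pool.Agent.Results.MP_a95293_nt.RecordsForEveryN

open Finset Filter Pool.Agent.Q39.NT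

/-- The admissible `n`-tuples of the problem: coprime integers with sum zero and no vanishing proper
sub-sum. -/
def Admissible {n : ℕ} (x : Fin n → ℤ) : Prop :=
  Finset.univ.gcd x = 1 ∧ ∑ i, x i = 0 ∧
    ∀ I : Finset (Fin n), I.Nonempty → I ≠ Finset.univ → ∑ i ∈ I, x i ≠ 0

/-- The radical of `x_1 ⋯ x_n`: the product of the primes dividing it. -/
def rad {n : ℕ} (x : Fin n → ℤ) : ℕ := ∏ p ∈ (∏ i, x i).natAbs.primeFactors, p

/-- The assertion of Q1 for a fixed `n`. -/
def HoldsFor (n : ℕ) : Prop :=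
  ∃ M : ℝ, ∀ x : Fin n → ℤ, Admissible x → ∀ j, (|x j| : ℝ) ≤ (rad x : ℝ) ^ M

/-- Q1 for `n + 1` implies Q1 for `n`; Q1 is equivalent to Q1 for arbitrarily large `n`; records; the
inequality with the exponent `2 n - 5` and any constant has infinitely many exceptions. -/
theorem result :
    (∀ n : ℕ, 3 ≤ n → HoldsFor (n + 1) → HoldsFor n) ∧
    ((∀ n : ℕ, 3 ≤ n → HoldsFor n) ↔ ∀ N : ℕ, ∃ n : ℕ, N ≤ n ∧ HoldsFor n) ∧
    (∀ n : ℕ, 3 ≤ n → ∀ κ : ℝ, 0 ≤ κ → κ < 6.84 * √((2 * n - 5 : ℕ) : ℝ) → ∀ X : ℝ,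
      ∃ x : Fin n → ℤ, Admissible x ∧ ∃ j, X < (|x j| : ℝ) ∧
        (rad x : ℝ) ^ (2 * n - 5) *
          Real.exp (κ * √(Real.log |x j|) / Real.log (Real.log |x j|)) < (|x j| : ℝ)) ∧
    (∀ n : ℕ, 3 ≤ n → ∀ C : ℝ,
      {x : Fin n → ℤ | Admissible x ∧ ∃ j, C * (rad x : ℝ) ^ (2 * n - 5) < (|x j| : ℝ)}.Infinite) := by
  have h1 : ∀ n : ℕ, 3 ≤ n → HoldsFor (n + 1) → HoldsFor n := by
    rintro n hn ⟨M, hM⟩
    exact ⟨_, descend hn hM⟩
  have h3 : ∀ n : ℕ, 3 ≤ n → ∀ κ : ℝ, 0 ≤ κ → κ < 6.84 * √((2 * n - 5 : ℕ) : ℝ) → ∀ X : ℝ,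
      ∃ x : Fin n → ℤ, Admissible x ∧ ∃ j, X < (|x j| : ℝ) ∧
        (rad x : ℝ) ^ (2 * n - 5) *
          Real.exp (κ * √(Real.log |x j|) / Real.log (Real.log |x j|)) < (|x j| : ℝ) := by
    intro n hn κ h0 h2 X
    obtain ⟨k, rfl⟩ : ∃ k, n = k + 3 := ⟨n - 3, by omega⟩
    have e : 2 * (k + 3) - 5 = 2 * k + 1 := by omega
    rw [e] at h2 ⊢
    exact records k h0 h2 X
  refine ⟨h1, ⟨fun h N => ⟨max N 3, le_max_left _ _, h _ (le_max_right _ _)⟩, fun h n hn => ?_⟩,
    h3, fun n hn C => ?_⟩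
  · obtain ⟨N, hN, hN2⟩ := h n
    have h2 : ∀ d : ℕ, HoldsFor (n + d) → HoldsFor n := by
      intro d
      induction d with
      | zero => exact id
      | succ d ih => exact fun h => ih (h1 (n + d) (by omega) h)
    obtain ⟨d, rfl⟩ := Nat.exists_eq_add_of_le hN
    exact h2 d hN2
  · intro hfin
    -- a bound for the coordinates of the exceptions
    obtain ⟨B, hB⟩ : ∃ B : ℝ, ∀ x ∈ {x : Fin n → ℤ | Admissible x ∧
        ∃ j, C * (rad x : ℝ) ^ (2 * n - 5) < (|x j| : ℝ)}, ∀ j, (|x j| : ℝ) ≤ B := by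
      refine ⟨∑ x ∈ hfin.toFinset, ∑ j, (|x j| : ℝ), fun x hx j => ?_⟩
      calc (|x j| : ℝ) ≤ ∑ j, (|x j| : ℝ) :=
            single_le_sum (f := fun j => (|x j| : ℝ)) (fun j _ => abs_nonneg _) (mem_univ j)
        _ ≤ _ := single_le_sum (f := fun x : Fin n → ℤ => ∑ j, (|x j| : ℝ))
            (fun x _ => sum_nonneg fun j _ => abs_nonneg _) (hfin.mem_toFinset.2 hx)
    -- the growth of the factor
    have hev : ∀ᶠ L : ℝ in atTop, Real.log (|C| + 1) * Real.log L ≤ 1 * √L := by
      have h2 : (fun L : ℝ => Real.log (|C| + 1) * Real.log L) =o[atTop] fun L : ℝ => √L := by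
        have h2 := isLittleO_log_rpow_atTop (show (0 : ℝ) < 1 / 2 by norm_num)
        have h3 : (fun x : ℝ => x ^ (1 / 2 : ℝ)) = fun L : ℝ => √L := by
          funext x; rw [Real.sqrt_eq_rpow]
        rw [h3] at h2
        exact h2.const_mul_left _
      have h3 := h2.bound one_pos
      filter_upwards [h3, eventually_ge_atTop 0] with L hL hL0
      calc _ ≤ ‖Real.log (|C| + 1) * Real.log L‖ := Real.le_norm_self _
        _ ≤ 1 * ‖√L‖ := hL
        _ = 1 * √L := by rw [Real.norm_of_nonneg (Real.sqrt_nonneg _)]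
    obtain ⟨L₀, hL₀⟩ := eventually_atTop.1 hev
    have hm : (1 : ℝ) ≤ ((2 * n - 5 : ℕ) : ℝ) := by
      have : 1 ≤ 2 * n - 5 := by omega
      exact_mod_cast this
    have hs : (1 : ℝ) < 6.84 * √((2 * n - 5 : ℕ) : ℝ) := by
      have := Real.one_le_sqrt.2 hm
      linarith
    obtain ⟨x, hx, j, hj1, hj2⟩ := h3 n hn 1 zero_le_one hs
      (max B (Real.exp (max L₀ (Real.exp 1))))
    have hBj : B < (|x j| : ℝ) := lt_of_le_of_lt (le_max_left _ _) hj1
    refine absurd (hB x ⟨hx, j, ?_⟩ j) (not_le.2 hBj)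
    have hej : Real.exp (max L₀ (Real.exp 1)) < (|x j| : ℝ) := lt_of_le_of_lt (le_max_right _ _) hj1
    have hj0 : (0 : ℝ) < (|x j| : ℝ) := (Real.exp_pos _).trans hej
    have hL : max L₀ (Real.exp 1) < Real.log |(x j : ℝ)| := (Real.lt_log_iff_exp_lt hj0).2 hej
    have he1 : (1 : ℝ) < Real.exp 1 := Real.one_lt_exp_iff.mpr one_pos
    have hL1 : 1 < Real.log |(x j : ℝ)| := he1.trans (lt_of_le_of_lt (le_max_right _ _) hL)
    have hLL := Real.log_pos hL1
    have h4 := hL₀ _ ((le_max_left _ _).trans hL.le)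
    have hC0 : 0 < |C| + 1 := by positivity
    have h5 : |C| + 1 ≤ Real.exp (1 * √(Real.log |(x j : ℝ)|) / Real.log (Real.log |(x j : ℝ)|)) := by
      rw [← Real.log_le_iff_le_exp hC0, le_div_iff₀ hLL]
      exact h4
    have h6 : (0 : ℝ) ≤ (rad x : ℝ) ^ (2 * n - 5) := by positivity
    calc C * (rad x : ℝ) ^ (2 * n - 5) ≤ (|C| + 1) * (rad x : ℝ) ^ (2 * n - 5) := by
          have := le_abs_self C
          nlinarith
      _ ≤ Real.exp (1 * √(Real.log |(x j : ℝ)|) / Real.log (Real.log |(x j : ℝ)|)) *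
          (rad x : ℝ) ^ (2 * n - 5) := by gcongr
      _ = _ := mul_comm _ _
      _ < _ := hj2

end Pool.Agent.Results.MP_a95293_nt.RecordsForEveryN
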