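import Pool.Agent.Results.MP_a95293_nt.FewExceptions
import Pool.Agent.Y854.GM.Win

/-!
# The n-term abc conjecture in windows of heights: Q1 for all tuples, and explicit exponents

Let `v ≥ 1` be a sequence with exponent of convergence at most `τ` (for `v_j = b ^ j` it is `0`, for `v_j = j ^ a` it is
`1 / a`), and let `θ < 1`. The height of a tuple is `max |x_i|`.

1. Let `τ = 0`. There is one set `E` of Hausdorff dimension ZERO such that for every `α > 0` outside `E` the assertion of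
Q1 holds for ALL admissible tuples with heights in the windows `[α v_j - v_j ^ θ, α v_j + v_j ^ θ]`, `j = 0, 1, …`: for
every `n ≥ 3` and `θ < 1` there is `M_n` with `max |x_i| ≤ rad ^ M_n` for all these `n`-tuples.
2. Explicit exponents: for every `n ≥ 3` and `M > 0` and all `α > 0` outside a set of dimension at most
`((1 - 1 / binom(n, ⌊n/2⌋)) / M + τ) / (1 - θ)` ALL admissible `n`-tuples with heights in the windows number `j ≥ j₀`
satisfy `max |x_i| ≤ rad ^ M`; for the tuples with pairwise coprime coordinates the dimension is at most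
`((1 - 1 / n) / M + τ) / (1 - θ)`.
-/

set_option autoImplicit false

namespace Pool.Agent.Results.MP_a95293_nt.WindowsWithoutExceptions

open FewExceptions (exceptions)
open scoped ENNReal

/-- the exponent of convergence of the sequence `v` is at most `τ` -/
def ExpLe (v : ℕ → ℝ) (τ : ℝ) : Prop := ∀ t : ℝ, τ < t → Summable (fun n : ℕ => (v n) ^ (-t))

/-- The admissible `n`-tuples of the problem: coprime integers with sum zero and no vanishing proper sub-sum. -/
def Admissible {n : ℕ} (x : Fin n → ℤ) : Prop :=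
  Finset.univ.gcd x = 1 ∧ ∑ i, x i = 0 ∧
    ∀ I : Finset (Fin n), I.Nonempty → I ≠ Finset.univ → ∑ i ∈ I, x i ≠ 0

/-- The radical of `x_1 ⋯ x_n`: the product of the primes dividing it. -/
def rad {n : ℕ} (x : Fin n → ℤ) : ℕ := ∏ p ∈ (∏ i, x i).natAbs.primeFactors, p

/-- The height `max |x_i|` of a tuple. -/
noncomputable def height {n : ℕ} (x : Fin n → ℤ) : ℝ := ((Finset.univ.sup fun i => (x i).natAbs : ℕ) : ℝ)

lemma abs_le_height {n : ℕ} (x : Fin n → ℤ) (i : Fin n) : (|x i| : ℝ) ≤ height x := by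
  have h1 : (x i).natAbs ≤ Finset.univ.sup fun i => (x i).natAbs :=
    Finset.le_sup (f := fun i => (x i).natAbs) (Finset.mem_univ i)
  have h2 : (((x i).natAbs : ℕ) : ℝ) = |(x i : ℝ)| := by
    rw [Nat.cast_natAbs, Int.cast_abs]
  rw [← h2]
  exact Nat.cast_le.2 h1

lemma height_le {n : ℕ} (x : Fin n → ℤ) (B : ℝ) (hB : 0 ≤ B) (h : ∀ i, (|x i| : ℝ) ≤ B) : height x ≤ B := by
  have h1 : Finset.univ.sup (fun i => (x i).natAbs) ≤ ⌊B⌋₊ := by
    apply Finset.sup_le
    intro i _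
    apply Nat.le_floor
    have h2 : (((x i).natAbs : ℕ) : ℝ) = |(x i : ℝ)| := by
      rw [Nat.cast_natAbs, Int.cast_abs]
    rw [h2]
    exact h i
  exact (Nat.cast_le.2 h1).trans (Nat.floor_le hB)

lemma rad_pos {n : ℕ} (x : Fin n → ℤ) : 0 < rad x :=
  Finset.prod_pos fun _ hp => (Nat.prime_of_mem_primeFactors hp).pos

/-- the exceptions, of all heights -/
def Exc (n : ℕ) (M : ℝ) : Set (Fin n → ℤ) :=
  {x | Admissible x ∧ ((rad x : ℕ) : ℝ) ^ M < height x}

lemma exc_sub (n : ℕ) (hn : 3 ≤ n) (M X : ℝ) :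
    {x | x ∈ Exc n M ∧ height x ≤ X} ⊆ exceptions n M X := by
  rintro x ⟨⟨h1, h2⟩, h3⟩
  refine ⟨h1, fun i => (abs_le_height x i).trans h3, ?_⟩
  by_contra hcon
  push Not at hcon
  have h4 := height_le x (((rad x : ℕ) : ℝ) ^ M) (by positivity) hcon
  exact absurd h2 (not_lt.2 h4)

lemma win_all (n : ℕ) (hn : 3 ≤ n) (M : ℝ) (hM : 0 < M) {v : ℕ → ℝ} {τ θ : ℝ} (hv : ∀ n, 1 ≤ v n)
    (hτ : 0 ≤ τ) (hE : ExpLe v τ) (hθ : θ < 1) :
    ∃ E : Set ℝ, dimH E ≤ ENNReal.ofReal (((1 - 1 / (n.choose (n / 2) : ℝ)) / M + τ) / (1 - θ)) ∧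
      ∀ α : ℝ, 0 < α → α ∉ E → ∃ j₀ : ℕ, ∀ j : ℕ, j₀ ≤ j → ∀ x ∈ Exc n M,
        (v j) ^ θ < |height x - α * v j| := by
  have hc : (1 : ℝ) ≤ n.choose (n / 2) := by
    exact_mod_cast Nat.choose_pos (Nat.div_le_self n 2)
  have hs : 0 ≤ (1 - 1 / (n.choose (n / 2) : ℝ)) / M := by
    apply div_nonneg _ hM.le
    rw [sub_nonneg, div_le_one (by linarith)]
    exact hc
  refine Pool.Agent.Y854.GM.windows (Exc n M) height hv hτ hE hs hθ fun ε hε => ?_
  obtain ⟨C, hC⟩ := FewExceptions.all_tuples n hn M ε hM hε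
  refine ⟨C, fun X hX => ?_⟩
  obtain ⟨h1, h2⟩ := hC X hX
  refine ⟨h1.subset (exc_sub n hn M X), le_trans ?_ h2⟩
  exact_mod_cast Set.ncard_le_ncard (exc_sub n hn M X) h1

lemma win_cop (n : ℕ) (hn : 3 ≤ n) (M : ℝ) (hM : 0 < M) {v : ℕ → ℝ} {τ θ : ℝ} (hv : ∀ n, 1 ≤ v n)
    (hτ : 0 ≤ τ) (hE : ExpLe v τ) (hθ : θ < 1) :
    ∃ E : Set ℝ, dimH E ≤ ENNReal.ofReal (((1 - 1 / (n : ℝ)) / M + τ) / (1 - θ)) ∧
      ∀ α : ℝ, 0 < α → α ∉ E → ∃ j₀ : ℕ, ∀ j : ℕ, j₀ ≤ j →
        ∀ x ∈ {x ∈ Exc n M | ∀ i j, i ≠ j → IsCoprime (x i) (x j)},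
        (v j) ^ θ < |height x - α * v j| := by
  have hn1 : (1 : ℝ) ≤ n := by exact_mod_cast (by omega : 1 ≤ n)
  have hs : 0 ≤ (1 - 1 / (n : ℝ)) / M := by
    apply div_nonneg _ hM.le
    rw [sub_nonneg, div_le_one (by linarith)]
    exact hn1
  refine Pool.Agent.Y854.GM.windows _ height hv hτ hE hs hθ fun ε hε => ?_
  obtain ⟨C, hC⟩ := FewExceptions.coprime_tuples n hn M ε hM hε
  obtain ⟨C', hC'⟩ := FewExceptions.all_tuples n hn M ε hM hε
  refine ⟨C, fun X hX => ?_⟩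
  have h1 := (hC' X hX).1
  have hsub : {t | t ∈ {x ∈ Exc n M | ∀ i j, i ≠ j → IsCoprime (x i) (x j)} ∧ height t ≤ X} ⊆
      {x ∈ exceptions n M X | ∀ i j, i ≠ j → IsCoprime (x i) (x j)} := by
    rintro x ⟨⟨h2, h3⟩, h4⟩
    exact ⟨exc_sub n hn M X ⟨h2, h4⟩, h3⟩
  have hfin : {x ∈ exceptions n M X | ∀ i j, i ≠ j → IsCoprime (x i) (x j)}.Finite :=
    h1.subset fun x hx => hx.1
  refine ⟨hfin.subset hsub, le_trans ?_ (hC X hX)⟩
  exact_mod_cast Set.ncard_le_ncard hsub hfin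

/-- **The n-term abc conjecture in windows of heights.** -/
theorem result :
    (∀ v : ℕ → ℝ, (∀ j, 1 ≤ v j) → ExpLe v 0 → ∃ E : Set ℝ, dimH E = 0 ∧ ∀ α : ℝ, 0 < α → α ∉ E →
      ∀ (n : ℕ) (θ : ℝ), 3 ≤ n → θ < 1 → ∃ M : ℝ, ∀ j : ℕ, ∀ x : Fin n → ℤ, Admissible x →
        |height x - α * v j| ≤ (v j) ^ θ → height x ≤ ((rad x : ℕ) : ℝ) ^ M) ∧
    (∀ (n : ℕ) (M : ℝ) (v : ℕ → ℝ) (τ θ : ℝ), 3 ≤ n → 0 < M → (∀ j, 1 ≤ v j) → 0 ≤ τ → ExpLe v τ → θ < 1 →
      (∃ E : Set ℝ, dimH E ≤ ENNReal.ofReal (((1 - 1 / (n.choose (n / 2) : ℝ)) / M + τ) / (1 - θ)) ∧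
        ∀ α : ℝ, 0 < α → α ∉ E → ∃ j₀ : ℕ, ∀ j : ℕ, j₀ ≤ j → ∀ x : Fin n → ℤ, Admissible x →
          |height x - α * v j| ≤ (v j) ^ θ → height x ≤ ((rad x : ℕ) : ℝ) ^ M) ∧
      ∃ E : Set ℝ, dimH E ≤ ENNReal.ofReal (((1 - 1 / (n : ℝ)) / M + τ) / (1 - θ)) ∧
        ∀ α : ℝ, 0 < α → α ∉ E → ∃ j₀ : ℕ, ∀ j : ℕ, j₀ ≤ j → ∀ x : Fin n → ℤ, Admissible x →
          (∀ i k, i ≠ k → IsCoprime (x i) (x k)) →
          |height x - α * v j| ≤ (v j) ^ θ → height x ≤ ((rad x : ℕ) : ℝ) ^ M) ∧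
    (∀ a : ℝ, 0 < a → ExpLe (fun j : ℕ => ((j : ℝ) + 1) ^ a) (1 / a)) ∧
    (∀ b : ℝ, 1 < b → ExpLe (fun j : ℕ => b ^ j) 0) := by
  refine ⟨fun v hv hE => ?_, fun n M v τ θ hn hM hv hτ hE hθ => ⟨?_, ?_⟩,
    fun κ hκ => Pool.Agent.Y854.GM.expLe_pow κ hκ, fun b hb => Pool.Agent.Y854.GM.expLe_geom b hb⟩
  · -- the exponents `M = m + 1`, the windows `θ = 1 - 1 / (k + 1)`, the numbers of terms `n + 3`
    have hθk : ∀ k : ℕ, 1 - 1 / ((k : ℝ) + 1) < 1 := fun k => by
      have : 0 < 1 / ((k : ℝ) + 1) := by positivity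
      linarith
    have hall : ∀ n k m : ℕ, ∃ E : Set ℝ,
        dimH E ≤ ENNReal.ofReal (((1 - 1 / ((n + 3).choose ((n + 3) / 2) : ℝ)) / ((m : ℝ) + 1) + 0) /
          (1 - (1 - 1 / ((k : ℝ) + 1)))) ∧
        ∀ α : ℝ, 0 < α → α ∉ E → ∃ j₀ : ℕ, ∀ j : ℕ, j₀ ≤ j → ∀ x ∈ Exc (n + 3) ((m : ℝ) + 1),
          (v j) ^ (1 - 1 / ((k : ℝ) + 1)) < |height x - α * v j| := fun n k m =>
      win_all (n + 3) (by omega) ((m : ℝ) + 1) (by positivity) hv le_rfl hE (hθk k)
    choose E hE1 hE2 using hall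
    refine ⟨⋃ n, ⋃ k, ⋂ m, E n k m, ?_, fun α hα hαE n θ hn hθ => ?_⟩
    · rw [dimH_iUnion]
      refine le_antisymm (iSup_le fun n => ?_) bot_le
      rw [dimH_iUnion]
      refine iSup_le fun k => ?_
      have hb : ∀ m : ℕ, dimH (⋂ m, E n k m) ≤ ENNReal.ofReal (((k : ℝ) + 1) / ((m : ℝ) + 1)) := by
        intro m
        refine (dimH_mono (Set.iInter_subset _ m)).trans ((hE1 n k m).trans ?_)
        apply ENNReal.ofReal_le_ofReal
        have hc : (0 : ℝ) < (n + 3).choose ((n + 3) / 2) := by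
          exact_mod_cast Nat.choose_pos (Nat.div_le_self _ 2)
        have h1 : (1 - 1 / ((n + 3).choose ((n + 3) / 2) : ℝ)) ≤ 1 := by
          have : 0 < 1 / ((n + 3).choose ((n + 3) / 2) : ℝ) := by positivity
          linarith
        have h2 : (1 - (1 - 1 / ((k : ℝ) + 1))) = 1 / ((k : ℝ) + 1) := by ring
        rw [h2, div_div_eq_mul_div, div_one, add_zero, div_mul_eq_mul_div]
        apply div_le_div_of_nonneg_right _ (by positivity)
        have : 0 < (k : ℝ) + 1 := by positivity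
        nlinarith
      have hlim : Filter.Tendsto (fun m : ℕ => ENNReal.ofReal (((k : ℝ) + 1) / ((m : ℝ) + 1)))
          Filter.atTop (nhds 0) := by
        rw [← ENNReal.ofReal_zero]
        apply ENNReal.tendsto_ofReal
        have h1 := tendsto_one_div_add_atTop_nhds_zero_nat (𝕜 := ℝ)
        have h2 := h1.const_mul ((k : ℝ) + 1)
        rw [mul_zero] at h2
        refine h2.congr fun m => ?_
        rw [mul_one_div]
      exact ge_of_tendsto' hlim hb
    · obtain ⟨n', rfl⟩ := Nat.exists_eq_add_of_le' hn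
      -- choose the window exponent
      obtain ⟨k, hk⟩ : ∃ k : ℕ, θ ≤ 1 - 1 / ((k : ℝ) + 1) := by
        obtain ⟨k, hk⟩ := exists_nat_gt (1 / (1 - θ))
        refine ⟨k, ?_⟩
        have h1 : 0 < 1 - θ := by linarith
        have h2 : 1 / ((k : ℝ) + 1) ≤ 1 - θ := by
          rw [div_le_iff₀ (by positivity)]
          rw [div_lt_iff₀ h1] at hk
          nlinarith
        linarith
      have h3 : ∃ m, α ∉ E n' k m := by
        by_contra hcon
        push Not at hcon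
        exact hαE (Set.mem_iUnion.2 ⟨n', Set.mem_iUnion.2 ⟨k, Set.mem_iInter.2 hcon⟩⟩)
      obtain ⟨m, hm⟩ := h3
      obtain ⟨j₀, hj₀⟩ := hE2 n' k m α hα hm
      -- a bound for the heights in the first windows
      set H : ℝ := ∑ j ∈ Finset.range j₀, (α * v j + (v j) ^ θ) with hH
      have hH0 : ∀ j, 0 ≤ α * v j + (v j) ^ θ := fun j => by
        have := hv j
        have : 0 < v j := by linarith
        positivity
      obtain ⟨M', hM'⟩ := pow_unbounded_of_one_lt H (by norm_num : (1 : ℝ) < 2)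
      refine ⟨max ((m : ℝ) + 1) M', fun j x hx hw => ?_⟩
      have hr1 : (1 : ℝ) ≤ ((rad x : ℕ) : ℝ) := by exact_mod_cast rad_pos x
      by_cases hj : j₀ ≤ j
      · have h4 : height x ≤ ((rad x : ℕ) : ℝ) ^ ((m : ℝ) + 1) := by
          by_contra hcon
          push Not at hcon
          have h5 := hj₀ j hj x ⟨hx, hcon⟩
          have h6 : (v j) ^ θ ≤ (v j) ^ (1 - 1 / ((k : ℝ) + 1)) :=
            Real.rpow_le_rpow_of_exponent_le (hv j) hk
          linarith
        exact h4.trans (Real.rpow_le_rpow_of_exponent_le hr1 (le_max_left _ _))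
      · push Not at hj
        have h4 : height x ≤ H := by
          have h5 := (abs_le.1 hw).2
          have h6 : α * v j + (v j) ^ θ ≤ H :=
            Finset.single_le_sum (f := fun j => α * v j + (v j) ^ θ) (fun j _ => hH0 j)
              (Finset.mem_range.2 hj)
          linarith
        by_cases hr : 2 ≤ rad x
        · have hr2 : (2 : ℝ) ≤ ((rad x : ℕ) : ℝ) := by exact_mod_cast hr
          calc height x ≤ H := h4
            _ ≤ (2 : ℝ) ^ M' := hM'.le
            _ = (2 : ℝ) ^ (M' : ℝ) := (Real.rpow_natCast _ _).symm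
            _ ≤ ((rad x : ℕ) : ℝ) ^ (M' : ℝ) := Real.rpow_le_rpow (by norm_num) hr2 (by positivity)
            _ ≤ _ := Real.rpow_le_rpow_of_exponent_le hr1 (le_max_right _ _)
        · -- radical one: all coordinates are `± 1`
          have hr3 : rad x = 1 := by
            have := rad_pos x
            omega
          have hne : ∀ i, x i ≠ 0 := by
            intro i hi
            refine hx.2.2 {i} (Finset.singleton_nonempty i) ?_ (by simpa using hi)
            intro h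
            have h1 := congrArg Finset.card h
            rw [Finset.card_singleton, Finset.card_univ, Fintype.card_fin] at h1
            omega
          have hprod : (∏ i, x i).natAbs = 1 := by
            have hP0 : (∏ i, x i).natAbs ≠ 0 := by
              rw [Int.natAbs_ne_zero]
              exact Finset.prod_ne_zero_iff.2 fun i _ => hne i
            by_contra hcon
            obtain ⟨p, hp, hpd⟩ := Nat.exists_prime_and_dvd hcon
            have hmem : p ∈ (∏ i, x i).natAbs.primeFactors := Nat.mem_primeFactors.2 ⟨hp, hpd, hP0⟩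
            have h7 : p ∣ rad x := Finset.dvd_prod_of_mem _ hmem
            rw [hr3] at h7
            exact hp.one_lt.ne' (Nat.dvd_one.1 h7)
          have h8 : height x ≤ 1 := by
            apply height_le x 1 zero_le_one
            intro i
            have h9 : x i ∣ ∏ i, x i := Finset.dvd_prod_of_mem _ (Finset.mem_univ i)
            have h10 : (x i).natAbs ∣ 1 := by
              rw [← hprod]
              exact Int.natAbs_dvd_natAbs.2 h9
            have h11 : (x i).natAbs = 1 := Nat.dvd_one.1 h10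
            have h12 : (((x i).natAbs : ℕ) : ℝ) = |(x i : ℝ)| := by
              rw [Nat.cast_natAbs, Int.cast_abs]
            rw [← h12, h11]
            simp
          rw [hr3, Nat.cast_one, Real.one_rpow]
          exact h8
  · obtain ⟨E, h1, h2⟩ := win_all n hn M hM hv hτ hE hθ
    refine ⟨E, h1, fun α hα hαE => ?_⟩
    obtain ⟨j₀, hj⟩ := h2 α hα hαE
    refine ⟨j₀, fun j hjj x hx hw => ?_⟩
    by_contra hcon
    push Not at hcon
    exact absurd (hj j hjj x ⟨hx, hcon⟩) (not_lt.2 hw)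
  · obtain ⟨E, h1, h2⟩ := win_cop n hn M hM hv hτ hE hθ
    refine ⟨E, h1, fun α hα hαE => ?_⟩
    obtain ⟨j₀, hj⟩ := h2 α hα hαE
    refine ⟨j₀, fun j hjj x hx hco hw => ?_⟩
    by_contra hcon
    push Not at hcon
    exact absurd (hj j hjj x ⟨⟨hx, hcon⟩, hco⟩) (not_lt.2 hw)

end Pool.Agent.Results.MP_a95293_nt.WindowsWithoutExceptions
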